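import Mathlib

set_option autoImplicit false

open Equiv

namespace Pool.Agent.Results.MP_f2c072_co.Disproof

/-- The permutation `σ` of `{0, …, n-1}` (one-line form `σ 0, σ 1, …`) contains the pattern
`p` of length `k` consecutively at position `i`: the entries `σ i, …, σ (i+k-1)` exist and are in
the same relative order as `p`, i.e. their reduction is `p`. -/
def OccursAt {k n : ℕ} (p : Perm (Fin k)) (σ : Perm (Fin n)) (i : ℕ) : Prop :=
  ∃ h : i + k ≤ n, ∀ a b : Fin k,
    σ ⟨i + a, lt_of_lt_of_le (Nat.add_lt_add_left a.isLt i) h⟩ <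
      σ ⟨i + b, lt_of_lt_of_le (Nat.add_lt_add_left b.isLt i) h⟩ ↔ p a < p b

/-- `σ` avoids every pattern of the set `B` consecutively. -/
def Avoids {k n : ℕ} (B : Finset (Perm (Fin k))) (σ : Perm (Fin n)) : Prop :=
  ∀ p ∈ B, ∀ i : ℕ, ¬ OccursAt p σ i

/-- The number of permutations of length `n` that avoid `B` consecutively. -/
noncomputable def alpha {k : ℕ} (B : Finset (Perm (Fin k))) (n : ℕ) : ℕ :=
  Nat.card {σ : Perm (Fin n) // Avoids B σ}

/-- The pattern `1 2 ⋯ (k-2) k (k-1)` of length `k ≥ 3` (values and positions shifted to start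
from `0`): the identity with the last two entries exchanged. -/
def tau1 (k : ℕ) (hk : 3 ≤ k) : Perm (Fin k) :=
  swap ⟨k - 2, by omega⟩ ⟨k - 1, by omega⟩

/-- The pattern `1 2 ⋯ (k-3) (k-1) k (k-2)` of length `k ≥ 3` (values and positions shifted to
start from `0`). -/
def tau2 (k : ℕ) (hk : 3 ≤ k) : Perm (Fin k) :=
  swap ⟨k - 3, by omega⟩ ⟨k - 2, by omega⟩ * swap ⟨k - 2, by omega⟩ ⟨k - 1, by omega⟩

/-! ### Explicit values of the patterns -/

lemma swap_val {n : ℕ} (x y i : Fin n) :
    ((swap x y i : Fin n) : ℕ) = if (i : ℕ) = x then (y : ℕ) else if (i : ℕ) = y then x else i := by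
  rw [swap_apply_def]
  simp only [Fin.ext_iff]
  split_ifs <;> rfl

lemma tau1_val (k : ℕ) (hk : 3 ≤ k) (i : Fin k) :
    ((tau1 k hk i : Fin k) : ℕ) = if (i : ℕ) = k - 2 then k - 1 else
      if (i : ℕ) = k - 1 then k - 2 else i := by
  unfold tau1
  rw [swap_val]

lemma tau2_val (k : ℕ) (hk : 3 ≤ k) (i : Fin k) :
    ((tau2 k hk i : Fin k) : ℕ) = if (i : ℕ) = k - 3 then k - 2 else
      if (i : ℕ) = k - 2 then k - 1 else if (i : ℕ) = k - 1 then k - 3 else i := by
  unfold tau2
  rw [Perm.mul_apply, swap_val, swap_val]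
  simp only
  have := i.isLt
  split_ifs <;> omega

/-- Values of the second pattern of the counterexample. -/
def rhoF (k i : ℕ) : ℕ :=
  if i = 0 then 0 else if i ≤ k - 4 then i + 1 else if i = k - 3 then 1 else
    if i = k - 2 then k - 1 else k - 2

/-- Values of its inverse. -/
def rhoG (k i : ℕ) : ℕ :=
  if i = 0 then 0 else if i = 1 then k - 3 else if i ≤ k - 3 then i - 1 else
    if i = k - 1 then k - 2 else k - 1

lemma rhoF_lt {k i : ℕ} (hk : 6 ≤ k) (hi : i < k) : rhoF k i < k := by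
  unfold rhoF
  split_ifs <;> omega

lemma rhoG_lt {k i : ℕ} (hk : 6 ≤ k) (hi : i < k) : rhoG k i < k := by
  unfold rhoG
  split_ifs <;> omega

lemma rhoG_rhoF {k i : ℕ} (hk : 6 ≤ k) (hi : i < k) : rhoG k (rhoF k i) = i := by
  unfold rhoF
  split_ifs <;> unfold rhoG <;> split_ifs <;> first | omega | (exfalso; assumption)

lemma rhoF_rhoG {k i : ℕ} (hk : 6 ≤ k) (hi : i < k) : rhoF k (rhoG k i) = i := by
  unfold rhoG
  split_ifs <;> unfold rhoF <;> split_ifs <;> omega

/-- The second pattern of the counterexample: `1 3 4 ⋯ (k-2) 2 k (k-1)`. -/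
def rho (k : ℕ) (hk : 6 ≤ k) : Perm (Fin k) where
  toFun i := ⟨rhoF k i, rhoF_lt hk i.isLt⟩
  invFun i := ⟨rhoG k i, rhoG_lt hk i.isLt⟩
  left_inv i := Fin.ext (rhoG_rhoF hk i.isLt)
  right_inv i := Fin.ext (rhoF_rhoG hk i.isLt)

lemma rho_val (k : ℕ) (hk : 6 ≤ k) (i : Fin k) :
    ((rho k hk i : Fin k) : ℕ) = if (i : ℕ) = 0 then 0 else
      if (i : ℕ) ≤ k - 4 then (i : ℕ) + 1 else
      if (i : ℕ) = k - 3 then 1 else if (i : ℕ) = k - 2 then k - 1 else k - 2 := rfl

/-! ### Transport of occurrences by right multiplication -/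

section Transport

variable {k n : ℕ}

/-- The window of positions `i, …, i+k-1`. -/
def win (i : ℕ) (h : i + k ≤ n) : Fin k ↪ Fin n where
  toFun a := ⟨i + a, lt_of_lt_of_le (Nat.add_lt_add_left a.isLt i) h⟩
  inj' a b hab := by
    apply Fin.ext
    have := congrArg Fin.val hab
    simp only at this
    omega

lemma win_val (i : ℕ) (h : i + k ≤ n) (a : Fin k) : ((win i h a : Fin n) : ℕ) = i + a := rfl

lemma occursAt_iff (p : Perm (Fin k)) (σ : Perm (Fin n)) (i : ℕ) (h : i + k ≤ n) :
    OccursAt p σ i ↔ ∀ a b : Fin k, σ (win i h a) < σ (win i h b) ↔ p a < p b :=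
  ⟨fun ⟨_, h2⟩ => h2, fun h2 => ⟨h, h2⟩⟩

lemma OccursAt.le {p : Perm (Fin k)} {σ : Perm (Fin n)} {i : ℕ} (h : OccursAt p σ i) :
    i + k ≤ n := h.1

/-- A window has at most one pattern. -/
lemma OccursAt.unique {p q : Perm (Fin k)} {σ : Perm (Fin n)} {i : ℕ} (hp : OccursAt p σ i)
    (hq : OccursAt q σ i) : p = q := by
  have hle := hp.le
  rw [occursAt_iff _ _ _ hle] at hp hq
  have h : ∀ a b, p a < p b ↔ q a < q b := fun a b => (hp a b).symm.trans (hq a b)
  -- `q * p⁻¹` is strictly monotone, hence the identity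
  have hmono : StrictMono (fun a => q (p.symm a)) := by
    intro a b hab
    rw [← h]
    simpa using hab
  have hid : ∀ a, q (p.symm a) = a := by
    intro a
    have e : Fin k ≃o Fin k := by
      exact StrictMono.orderIsoOfSurjective (fun a => q (p.symm a)) hmono
        (q.surjective.comp p.symm.surjective)
    have h1 : (StrictMono.orderIsoOfSurjective (fun a => q (p.symm a)) hmono
        (q.surjective.comp p.symm.surjective)) = OrderIso.refl (Fin k) := Subsingleton.elim _ _
    have h2 := congrArg (fun e : Fin k ≃o Fin k => e a) h1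
    simpa using h2
  ext a
  have := hid (p a)
  simp only [symm_apply_apply] at this
  rw [this]

lemma occursAt_mul (p r : Perm (Fin k)) (σ : Perm (Fin n)) (i : ℕ) (h : i + k ≤ n) :
    OccursAt (p * r) (σ * r.viaEmbedding (win i h)) i ↔ OccursAt p σ i := by
  rw [occursAt_iff _ _ _ h, occursAt_iff _ _ _ h]
  simp only [Perm.mul_apply, Perm.viaEmbedding_apply]
  constructor
  · intro H a b
    have := H (r.symm a) (r.symm b)
    simpa using this
  · intro H a b
    exact H (r a) (r b)

lemma occursAt_mul_of_fix (q : Perm (Fin k)) (π σ : Perm (Fin n)) (j : ℕ) (h : j + k ≤ n)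
    (hfix : ∀ b : Fin k, π (win j h b) = win j h b) :
    OccursAt q (σ * π) j ↔ OccursAt q σ j := by
  rw [occursAt_iff _ _ _ h, occursAt_iff _ _ _ h]
  simp only [Perm.mul_apply, hfix]

open Classical in
/-- The number of permutations having a given pattern at a given place does not depend on the
pattern. -/
lemma card_occursAt_eq (p p' : Perm (Fin k)) (i : ℕ) :
    (Finset.univ.filter (fun σ : Perm (Fin n) => OccursAt p σ i)).card =
      (Finset.univ.filter (fun σ : Perm (Fin n) => OccursAt p' σ i)).card := by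
  by_cases h : i + k ≤ n
  · apply Finset.card_equiv (Equiv.mulRight ((p⁻¹ * p').viaEmbedding (win i h)))
    intro σ
    simp only [Finset.mem_filter, Finset.mem_univ, true_and, Equiv.coe_mulRight]
    have := occursAt_mul p (p⁻¹ * p') σ i h
    rw [mul_inv_cancel_left] at this
    exact this.symm
  · have h1 : ∀ (r : Perm (Fin k)) (σ : Perm (Fin n)), ¬ OccursAt r σ i := fun r σ hr => h hr.le
    simp [h1]

end Transport

section Count

variable {k : ℕ}

open Classical in
/-- Permutations of length `2k-1` with pattern `p` in the first and pattern `q` in the last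
window. -/
noncomputable def EE (p q : Perm (Fin k)) : Finset (Perm (Fin (2 * k - 1))) :=
  Finset.univ.filter (fun σ => OccursAt p σ 0 ∧ OccursAt q σ (k - 1))

lemma mem_EE {p q : Perm (Fin k)} {σ : Perm (Fin (2 * k - 1))} :
    σ ∈ EE p q ↔ OccursAt p σ 0 ∧ OccursAt q σ (k - 1) := by
  classical
  simp [EE]

/-- Occurrence of some pattern of `B`. -/
def Occ {n : ℕ} (B : Finset (Perm (Fin k))) (σ : Perm (Fin n)) (i : ℕ) : Prop :=
  ∃ p ∈ B, OccursAt p σ i

/-- Occurrences overlap in at most one entry. -/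
def NonOverlap (B : Finset (Perm (Fin k))) : Prop :=
  ∀ p ∈ B, ∀ q ∈ B, ∀ (σ : Perm (Fin (2 * k - 1))) (i j : ℕ), i < j →
    OccursAt p σ i → OccursAt q σ j → i = 0 ∧ j = k - 1

open Classical in
lemma alpha_eq {n : ℕ} (B : Finset (Perm (Fin k))) :
    alpha B n = ∑ σ : Perm (Fin n), if Avoids B σ then 1 else 0 := by
  rw [alpha, Nat.card_eq_fintype_card, Fintype.card_subtype, Finset.card_filter]

open Classical in
lemma pointwise (hk : 2 ≤ k) {B : Finset (Perm (Fin k))} (hB : NonOverlap B)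
    (σ : Perm (Fin (2 * k - 1))) :
    (if Avoids B σ then 1 else 0) + ∑ i ∈ Finset.range k, (if Occ B σ i then 1 else 0) =
      1 + (if Occ B σ 0 ∧ Occ B σ (k - 1) then 1 else 0) := by
  have hpair : ∀ i j, i < j → Occ B σ i → Occ B σ j → i = 0 ∧ j = k - 1 := by
    rintro i j hij ⟨p, hp, hpo⟩ ⟨q, hq, hqo⟩
    exact hB p hp q hq σ i j hij hpo hqo
  by_cases hboth : Occ B σ 0 ∧ Occ B σ (k - 1)
  · have hav : ¬ Avoids B σ := by
      intro h
      obtain ⟨p, hp, hpo⟩ := hboth.1
      exact h p hp 0 hpo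
    rw [if_neg hav, if_pos hboth]
    have : ∑ i ∈ Finset.range k, (if Occ B σ i then 1 else 0)
        = ∑ i ∈ ({0, k - 1} : Finset ℕ), (1 : ℕ) := by
      symm
      have hsub : ({0, k - 1} : Finset ℕ) ⊆ Finset.range k := by
        intro x hx
        simp only [Finset.mem_insert, Finset.mem_singleton] at hx
        rw [Finset.mem_range]
        omega
      rw [← Finset.sum_subset hsub (f := fun i => if Occ B σ i then 1 else 0)]
      · apply Finset.sum_congr rfl
        intro x hx
        simp only [Finset.mem_insert, Finset.mem_singleton] at hx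
        rcases hx with rfl | rfl
        · rw [if_pos hboth.1]
        · rw [if_pos hboth.2]
      · intro x _ hx
        simp only [Finset.mem_insert, Finset.mem_singleton, not_or] at hx
        rw [if_neg]
        intro hox
        have := hpair 0 x (by omega) hboth.1 hox
        exact hx.2 this.2
    rw [this, Finset.sum_const, Finset.card_pair (by omega), smul_eq_mul]
  · rw [if_neg hboth]
    by_cases hav : Avoids B σ
    · rw [if_pos hav, Finset.sum_eq_zero]
      intro i _
      rw [if_neg]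
      rintro ⟨p, hp, hpo⟩
      exact hav p hp i hpo
    · rw [if_neg hav]
      unfold Avoids at hav
      push Not at hav
      obtain ⟨p, hp, i, hi⟩ := hav
      have hik : i < k := by
        have := hi.le
        omega
      rw [Finset.sum_eq_single_of_mem i (Finset.mem_range.2 hik)]
      · rw [if_pos ⟨p, hp, hi⟩]
      · intro j _ hji
        rw [if_neg]
        intro hj
        rcases lt_or_gt_of_ne hji with h | h
        · have := hpair j i h hj ⟨p, hp, hi⟩
          apply hboth
          rw [this.1] at hj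
          rw [this.2] at hi
          exact ⟨hj, ⟨p, hp, hi⟩⟩
        · have := hpair i j h ⟨p, hp, hi⟩ hj
          apply hboth
          rw [this.1] at hi
          rw [this.2] at hj
          exact ⟨⟨p, hp, hi⟩, hj⟩

open Classical in
/-- Number of permutations with some pattern of a two-element set at position `i`. -/
lemma sum_occ {n : ℕ} (p q p₀ : Perm (Fin k)) (hpq : p ≠ q) (i : ℕ) :
    ∑ σ : Perm (Fin n), (if Occ {p, q} σ i then 1 else 0) =
      2 * (Finset.univ.filter (fun σ : Perm (Fin n) => OccursAt p₀ σ i)).card := by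
  have h1 : ∀ σ : Perm (Fin n), (if Occ {p, q} σ i then 1 else 0) =
      (if OccursAt p σ i then 1 else 0) + (if OccursAt q σ i then 1 else 0) := by
    intro σ
    have h2 : Occ {p, q} σ i ↔ OccursAt p σ i ∨ OccursAt q σ i := by
      simp [Occ]
    by_cases hp : OccursAt p σ i
    · have hq : ¬ OccursAt q σ i := fun hq => hpq (hp.unique hq)
      simp [h2, hp, hq]
    · by_cases hq : OccursAt q σ i
      · simp [h2, hp, hq]
      · simp [h2, hp, hq]
  rw [Finset.sum_congr rfl (fun σ _ => h1 σ), Finset.sum_add_distrib, ← Finset.card_filter,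
    ← Finset.card_filter, card_occursAt_eq p p₀, card_occursAt_eq q p₀]
  ring

open Classical in
lemma sum_both (p q : Perm (Fin k)) (hpq : p ≠ q) :
    ∑ σ : Perm (Fin (2 * k - 1)), (if Occ {p, q} σ 0 ∧ Occ {p, q} σ (k - 1) then 1 else 0) =
      (EE p p).card + (EE p q).card + (EE q p).card + (EE q q).card := by
  have hE : ∀ a b : Perm (Fin k), (EE a b).card = ∑ σ : Perm (Fin (2 * k - 1)),
      (if OccursAt a σ 0 ∧ OccursAt b σ (k - 1) then 1 else 0) := by
    intro a b
    rw [← Finset.card_filter]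
    rfl
  rw [hE, hE, hE, hE, ← Finset.sum_add_distrib, ← Finset.sum_add_distrib,
    ← Finset.sum_add_distrib]
  apply Finset.sum_congr rfl
  intro σ _
  have h2 : ∀ i, Occ {p, q} σ i ↔ OccursAt p σ i ∨ OccursAt q σ i := by
    intro i
    simp [Occ]
  rw [h2, h2]
  have h0 : ¬ (OccursAt p σ 0 ∧ OccursAt q σ 0) := fun h => hpq (h.1.unique h.2)
  have h1 : ¬ (OccursAt p σ (k - 1) ∧ OccursAt q σ (k - 1)) := fun h => hpq (h.1.unique h.2)
  by_cases a : OccursAt p σ 0 <;> by_cases b : OccursAt q σ 0 <;>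
    by_cases c : OccursAt p σ (k - 1) <;> by_cases d : OccursAt q σ (k - 1) <;>
    simp_all

/-- The counting formula for a non-overlapping pair. -/
lemma alpha_formula (hk : 2 ≤ k) (p q p₀ : Perm (Fin k)) (hpq : p ≠ q)
    (hB : NonOverlap {p, q}) :
    ∃ M : ℕ, M = (by classical exact ∑ i ∈ Finset.range k, 2 *
        (Finset.univ.filter (fun σ : Perm (Fin (2 * k - 1)) => OccursAt p₀ σ i)).card) ∧
      alpha {p, q} (2 * k - 1) + M = Fintype.card (Perm (Fin (2 * k - 1))) +
        ((EE p p).card + (EE p q).card + (EE q p).card + (EE q q).card) := by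
  classical
  refine ⟨_, rfl, ?_⟩
  have h := Finset.sum_congr (rfl : (Finset.univ : Finset (Perm (Fin (2 * k - 1)))) = _)
    (fun σ _ => pointwise hk hB σ)
  rw [Finset.sum_add_distrib, Finset.sum_add_distrib, Finset.sum_comm, sum_both p q hpq,
    Finset.sum_congr rfl (fun i _ => sum_occ (n := 2 * k - 1) p q p₀ hpq i)] at h
  rw [alpha_eq]
  simpa using h

end Count

section Compare

variable {k : ℕ}

/-- The cardinality of `EE p q` only depends on the last value of `p` and the first of `q`. -/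
lemma card_EE_le (hk : 2 ≤ k) (p p' q q' : Perm (Fin k))
    (hp : p ⟨k - 1, by omega⟩ = p' ⟨k - 1, by omega⟩)
    (hq : q ⟨0, by omega⟩ = q' ⟨0, by omega⟩) : (EE p q).card ≤ (EE p' q').card := by
  classical
  have h0 : 0 + k ≤ 2 * k - 1 := by omega
  have h1 : k - 1 + k ≤ 2 * k - 1 := by omega
  set r : Perm (Fin k) := p⁻¹ * p' with hr
  set s : Perm (Fin k) := q⁻¹ * q' with hs
  set R := r.viaEmbedding (win 0 h0) with hR
  set S := s.viaEmbedding (win (k - 1) h1) with hS
  have hrfix : r ⟨k - 1, by omega⟩ = ⟨k - 1, by omega⟩ := by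
    rw [hr, Perm.mul_apply, ← hp]
    simp
  have hsfix : s ⟨0, by omega⟩ = ⟨0, by omega⟩ := by
    rw [hs, Perm.mul_apply, ← hq]
    simp
  have hRfix : ∀ b : Fin k, R (win (k - 1) h1 b) = win (k - 1) h1 b := by
    intro b
    by_cases hb : (b : ℕ) = 0
    · have e : win (k - 1) h1 b = win 0 h0 ⟨k - 1, by omega⟩ := by
        apply Fin.ext
        rw [win_val, win_val]
        simp only
        omega
      rw [e, hR, Perm.viaEmbedding_apply, hrfix]
    · rw [hR]
      apply Perm.viaEmbedding_apply_of_notMem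
      rintro ⟨a, ha⟩
      have := congrArg Fin.val ha
      simp only [win_val] at this
      have := a.isLt
      omega
  have hSfix : ∀ b : Fin k, S (win 0 h0 b) = win 0 h0 b := by
    intro b
    by_cases hb : (b : ℕ) = k - 1
    · have e : win 0 h0 b = win (k - 1) h1 ⟨0, by omega⟩ := by
        apply Fin.ext
        rw [win_val, win_val]
        simp only
        omega
      rw [e, hS, Perm.viaEmbedding_apply, hsfix]
    · rw [hS]
      apply Perm.viaEmbedding_apply_of_notMem
      rintro ⟨a, ha⟩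
      have := congrArg Fin.val ha
      simp only [win_val] at this
      have := b.isLt
      omega
  apply Finset.card_le_card_of_injOn (fun σ => σ * R * S)
  · intro σ hσ
    rw [Finset.mem_coe, mem_EE] at hσ ⊢
    constructor
    · show OccursAt p' (σ * R * S) 0
      rw [occursAt_mul_of_fix p' S (σ * R) 0 h0 hSfix]
      have := (occursAt_mul p r σ 0 h0).2 hσ.1
      rw [hr, mul_inv_cancel_left] at this
      exact this
    · show OccursAt q' (σ * R * S) (k - 1)
      have h2 : OccursAt q (σ * R) (k - 1) :=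
        (occursAt_mul_of_fix q R σ (k - 1) h1 hRfix).2 hσ.2
      have := (occursAt_mul q s (σ * R) (k - 1) h1).2 h2
      rw [hs, mul_inv_cancel_left] at this
      exact this
  · intro a _ b _ hab
    have : a * R * S = b * R * S := hab
    exact mul_right_cancel (mul_right_cancel this)

/-- Values of the extremal permutation. -/
def witF (k i : ℕ) : ℕ :=
  if i = k - 3 then k - 1 else if i = k - 1 then k - 3 else if i = k - 2 then k else
    if i = k then k - 2 else if i = 2 * k - 3 then 2 * k - 2 else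
      if i = 2 * k - 2 then 2 * k - 3 else i

lemma witF_cases {k : ℕ} (hk : 6 ≤ k) (i : ℕ) :
    (i = k - 3 ∧ witF k i = k - 1) ∨ (i = k - 1 ∧ witF k i = k - 3) ∨
    (i = k - 2 ∧ witF k i = k) ∨ (i = k ∧ witF k i = k - 2) ∨
    (i = 2 * k - 3 ∧ witF k i = 2 * k - 2) ∨ (i = 2 * k - 2 ∧ witF k i = 2 * k - 3) ∨
    (i ≠ k - 3 ∧ i ≠ k - 2 ∧ i ≠ k - 1 ∧ i ≠ k ∧ i ≠ 2 * k - 3 ∧ i ≠ 2 * k - 2 ∧
      witF k i = i) := by
  unfold witF
  split_ifs with h1 h2 h3 h4 h5 h6 <;> omega

lemma witF_lt {k i : ℕ} (hk : 6 ≤ k) (hi : i < 2 * k - 1) : witF k i < 2 * k - 1 := by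
  have := witF_cases hk i
  omega

lemma witF_witF {k : ℕ} (hk : 6 ≤ k) (i : ℕ) : witF k (witF k i) = i := by
  have h1 := witF_cases hk i
  have h2 := witF_cases hk (witF k i)
  omega

/-- The extremal permutation. -/
def wit (k : ℕ) (hk : 6 ≤ k) : Perm (Fin (2 * k - 1)) where
  toFun i := ⟨witF k i, witF_lt hk i.isLt⟩
  invFun i := ⟨witF k i, witF_lt hk i.isLt⟩
  left_inv i := Fin.ext (witF_witF hk i)
  right_inv i := Fin.ext (witF_witF hk i)

lemma wit_val (k : ℕ) (hk : 6 ≤ k) (i : Fin (2 * k - 1)) :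
    ((wit k hk i : Fin (2 * k - 1)) : ℕ) = witF k i := rfl

lemma tau1_cases (k : ℕ) (hk : 3 ≤ k) (i : Fin k) :
    ((i : ℕ) = k - 2 ∧ ((tau1 k hk i : Fin k) : ℕ) = k - 1) ∨
      ((i : ℕ) = k - 1 ∧ ((tau1 k hk i : Fin k) : ℕ) = k - 2) ∨
      ((i : ℕ) < k - 2 ∧ ((tau1 k hk i : Fin k) : ℕ) = i) := by
  have := i.isLt
  rw [tau1_val]
  split_ifs <;> omega

lemma tau2_cases (k : ℕ) (hk : 3 ≤ k) (i : Fin k) :
    ((i : ℕ) = k - 3 ∧ ((tau2 k hk i : Fin k) : ℕ) = k - 2) ∨
      ((i : ℕ) = k - 2 ∧ ((tau2 k hk i : Fin k) : ℕ) = k - 1) ∨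
      ((i : ℕ) = k - 1 ∧ ((tau2 k hk i : Fin k) : ℕ) = k - 3) ∨
      ((i : ℕ) < k - 3 ∧ ((tau2 k hk i : Fin k) : ℕ) = i) := by
  have := i.isLt
  rw [tau2_val]
  split_ifs <;> omega

lemma rho_cases (k : ℕ) (hk : 6 ≤ k) (i : Fin k) :
    ((i : ℕ) = 0 ∧ ((rho k hk i : Fin k) : ℕ) = 0) ∨
      ((i : ℕ) = k - 3 ∧ ((rho k hk i : Fin k) : ℕ) = 1) ∨
      ((i : ℕ) = k - 2 ∧ ((rho k hk i : Fin k) : ℕ) = k - 1) ∨
      ((i : ℕ) = k - 1 ∧ ((rho k hk i : Fin k) : ℕ) = k - 2) ∨
      (0 < (i : ℕ) ∧ (i : ℕ) ≤ k - 4 ∧ ((rho k hk i : Fin k) : ℕ) = i + 1) := by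
  have := i.isLt
  rw [rho_val]
  split_ifs <;> omega

lemma wit_win0 (k : ℕ) (hk : 6 ≤ k) (a : Fin k) :
    (witF k a < k - 3 ∧ witF k a = ((tau2 k (by omega) a : Fin k) : ℕ)) ∨
      (witF k a = k - 1 ∧ ((tau2 k (by omega) a : Fin k) : ℕ) = k - 2) ∨
      (witF k a = k ∧ ((tau2 k (by omega) a : Fin k) : ℕ) = k - 1) ∨
      (witF k a = k - 3 ∧ ((tau2 k (by omega) a : Fin k) : ℕ) = k - 3) := by
  have h2 := witF_cases hk a
  have h3 := tau2_cases k (by omega) a
  have := a.isLt
  omega

lemma wit_win1 (k : ℕ) (hk : 6 ≤ k) (a : Fin k) :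
    (witF k (k - 1 + a) = k - 3 ∧ ((tau1 k (by omega) a : Fin k) : ℕ) = 0) ∨
      (witF k (k - 1 + a) = k - 2 ∧ ((tau1 k (by omega) a : Fin k) : ℕ) = 1) ∨
      (k + 1 ≤ witF k (k - 1 + a) ∧
        witF k (k - 1 + a) = k - 1 + ((tau1 k (by omega) a : Fin k) : ℕ)) := by
  have h2 := witF_cases hk (k - 1 + a)
  have h3 := tau1_cases k (by omega) a
  have := a.isLt
  omega

lemma wit_mem (k : ℕ) (hk : 6 ≤ k) :
    wit k hk ∈ EE (tau2 k (by omega)) (tau1 k (by omega)) := by
  have h0 : 0 + k ≤ 2 * k - 1 := by omega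
  have h1 : k - 1 + k ≤ 2 * k - 1 := by omega
  rw [mem_EE, occursAt_iff _ _ _ h0, occursAt_iff _ _ _ h1]
  constructor
  · intro a b
    rw [Fin.lt_def, Fin.lt_def, wit_val, wit_val, win_val, win_val, zero_add, zero_add]
    have ha := wit_win0 k hk a
    have hb := wit_win0 k hk b
    omega
  · intro a b
    rw [Fin.lt_def, Fin.lt_def, wit_val, wit_val, win_val, win_val]
    have ha := wit_win1 k hk a
    have hb := wit_win1 k hk b
    omega

lemma tau1_mul_swap (k : ℕ) (hk : 6 ≤ k) :
    tau1 k (by omega) * swap ⟨k - 3, by omega⟩ ⟨k - 1, by omega⟩ = tau2 k (by omega) := by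
  ext i
  rw [Perm.mul_apply]
  have h1 := tau1_cases k (by omega)
    ((swap ⟨k - 3, by omega⟩ ⟨k - 1, by omega⟩ : Perm (Fin k)) i)
  have h2 := tau2_cases k (by omega) i
  rw [swap_val] at h1
  have := i.isLt
  simp only at h1
  split_ifs at h1 <;> omega

/-- The key strict inequality. -/
lemma card_EE_lt (hk : 6 ≤ k) :
    (EE (tau1 k (by omega)) (tau1 k (by omega))).card <
      (EE (tau2 k (by omega)) (tau1 k (by omega))).card := by
  classical
  have h0 : 0 + k ≤ 2 * k - 1 := by omega
  have h1 : k - 1 + k ≤ 2 * k - 1 := by omega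
  set t1 := tau1 k (by omega : 3 ≤ k) with ht1
  set t2 := tau2 k (by omega : 3 ≤ k) with ht2
  set s : Perm (Fin k) := swap ⟨k - 3, by omega⟩ ⟨k - 1, by omega⟩ with hs
  set S := s.viaEmbedding (win 0 h0) with hS
  have hts : t1 * s = t2 := tau1_mul_swap k hk
  -- the injection
  have hmaps : ∀ σ ∈ EE t1 t1, σ * S ∈ EE t2 t1 := by
    intro σ hσ
    rw [mem_EE] at hσ ⊢
    constructor
    · have := (occursAt_mul t1 s σ 0 h0).2 hσ.1
      rw [hts] at this
      exact this
    · have hA := (occursAt_iff _ _ _ h0).1 hσ.1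
      have hB := (occursAt_iff _ _ _ h1).1 hσ.2
      rw [occursAt_iff _ _ _ h1]
      -- values of `S` on the last window
      have hS0 : S (win (k - 1) h1 ⟨0, by omega⟩) = win 0 h0 ⟨k - 3, by omega⟩ := by
        have e : win (k - 1) h1 ⟨0, by omega⟩ = win 0 h0 ⟨k - 1, by omega⟩ := by
          apply Fin.ext
          rw [win_val, win_val]
          simp only
          omega
        rw [e, hS, Perm.viaEmbedding_apply, hs, swap_apply_right]
      have hSb : ∀ b : Fin k, (b : ℕ) ≠ 0 → S (win (k - 1) h1 b) = win (k - 1) h1 b := by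
        intro b hb
        rw [hS]
        apply Perm.viaEmbedding_apply_of_notMem
        rintro ⟨a, ha⟩
        have := congrArg Fin.val ha
        simp only [win_val] at this
        have := a.isLt
        omega
      -- the moved entry is smaller than the old shared entry
      have hlow : σ (win 0 h0 ⟨k - 3, by omega⟩) < σ (win (k - 1) h1 ⟨0, by omega⟩) := by
        have e : win (k - 1) h1 ⟨0, by omega⟩ = win 0 h0 ⟨k - 1, by omega⟩ := by
          apply Fin.ext
          rw [win_val, win_val]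
          simp only
          omega
        rw [e, hA, Fin.lt_def, ht1, tau1_val, tau1_val]
        simp only
        split_ifs <;> omega
      have hmin : ∀ b : Fin k, (b : ℕ) ≠ 0 → t1 ⟨0, by omega⟩ < t1 b := by
        intro b hb
        have := b.isLt
        rw [Fin.lt_def, ht1, tau1_val, tau1_val]
        simp only
        split_ifs <;> omega
      intro a b
      rw [Perm.mul_apply, Perm.mul_apply]
      by_cases ha : (a : ℕ) = 0
      · have ea : a = ⟨0, by omega⟩ := Fin.ext ha
        by_cases hb : (b : ℕ) = 0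
        · have eb : b = ⟨0, by omega⟩ := Fin.ext hb
          rw [ea, eb]
          simp
        · rw [ea, hS0, hSb b hb]
          have h2 := hmin b hb
          exact iff_of_true (hlow.trans ((hB _ _).2 h2)) h2
      · by_cases hb : (b : ℕ) = 0
        · have eb : b = ⟨0, by omega⟩ := Fin.ext hb
          rw [eb, hS0, hSb a ha]
          have h2 := hmin a ha
          exact iff_of_false (not_lt.2 (hlow.trans ((hB _ _).2 h2)).le) (not_lt.2 h2.le)
        · rw [hSb a ha, hSb b hb]
          exact hB a b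
  -- in the image the entry at `k-3` is below the entry at `k`
  have himage : ∀ σ ∈ EE t1 t1,
      (σ * S) (win 0 h0 ⟨k - 3, by omega⟩) < (σ * S) (win (k - 1) h1 ⟨1, by omega⟩) := by
    intro σ hσ
    rw [mem_EE] at hσ
    have hB := (occursAt_iff _ _ _ h1).1 hσ.2
    have e1 : S (win 0 h0 ⟨k - 3, by omega⟩) = win (k - 1) h1 ⟨0, by omega⟩ := by
      rw [hS, Perm.viaEmbedding_apply, hs, swap_apply_left]
      apply Fin.ext
      rw [win_val, win_val]
      simp only
      omega
    have e2 : S (win (k - 1) h1 ⟨1, by omega⟩) = win (k - 1) h1 ⟨1, by omega⟩ := by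
      rw [hS]
      apply Perm.viaEmbedding_apply_of_notMem
      rintro ⟨a, ha⟩
      have := congrArg Fin.val ha
      simp only [win_val] at this
      have := a.isLt
      omega
    rw [Perm.mul_apply, Perm.mul_apply, e1, e2, hB, Fin.lt_def, ht1, tau1_val, tau1_val]
    simp only
    split_ifs <;> omega
  -- an element outside the image
  set w := wit k hk with hw
  have hwE : w ∈ EE t2 t1 := wit_mem k hk
  have hwnot : w ∉ (EE t1 t1).image (fun σ => σ * S) := by
    intro h
    obtain ⟨σ, hσ, h2⟩ := Finset.mem_image.1 h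
    have := himage σ hσ
    rw [h2, Fin.lt_def, hw, wit_val, wit_val, win_val, win_val] at this
    have h3 := witF_cases hk (0 + (k - 3))
    have h4 := witF_cases hk (k - 1 + 1)
    simp only at this
    omega
  have hcard : ((EE t1 t1).image (fun σ => σ * S)).card = (EE t1 t1).card :=
    Finset.card_image_of_injective _ (mul_left_injective S)
  rw [← hcard]
  apply Finset.card_lt_card
  rw [Finset.ssubset_iff_of_subset]
  · exact ⟨w, hwE, hwnot⟩
  · intro x hx
    obtain ⟨σ, hσ, rfl⟩ := Finset.mem_image.1 hx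
    exact hmaps σ hσ

end Compare

section NonOverlapping

variable {k : ℕ}

/-- Two overlapping occurrences compare the entries of the patterns. -/
lemma overlap_rel {n : ℕ} {p q : Perm (Fin k)} {σ : Perm (Fin n)} {i d : ℕ}
    (hp : OccursAt p σ i) (hq : OccursAt q σ (i + d)) (a b a' b' : Fin k)
    (ha : (a' : ℕ) = d + a) (hb : (b' : ℕ) = d + b) : p a' < p b' ↔ q a < q b := by
  have h1 := hp.le
  have h2 := hq.le
  rw [occursAt_iff _ _ _ h1] at hp
  rw [occursAt_iff _ _ _ h2] at hq
  have e1 : win i h1 a' = win (i + d) h2 a := by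
    apply Fin.ext
    rw [win_val, win_val]
    omega
  have e2 : win i h1 b' = win (i + d) h2 b := by
    apply Fin.ext
    rw [win_val, win_val]
    omega
  rw [← hp, ← hq, e1, e2]

/-- The pair of the conjecture is non-overlapping. -/
lemma nonOverlap_tau (hk : 6 ≤ k) :
    NonOverlap ({tau1 k (by omega), tau2 k (by omega)} : Finset (Perm (Fin k))) := by
  intro p hp q hq σ i j hij hpo hqo
  have h1 := hpo.le
  have h2 := hqo.le
  by_contra hcon
  obtain ⟨d, rfl⟩ : ∃ d, j = i + d := ⟨j - i, by omega⟩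
  have hd : 1 ≤ d ∧ d ≤ k - 2 := by omega
  have hrel := overlap_rel hpo hqo ⟨k - 1 - d, by omega⟩ ⟨k - 2 - d, by omega⟩
    ⟨k - 1, by omega⟩ ⟨k - 2, by omega⟩ (by simp only; omega) (by simp only; omega)
  have hdesc : p ⟨k - 1, by omega⟩ < p ⟨k - 2, by omega⟩ := by
    rw [Finset.mem_insert, Finset.mem_singleton] at hp
    rw [Fin.lt_def]
    rcases hp with rfl | rfl
    · have h3 := tau1_cases k (by omega) ⟨k - 1, by omega⟩
      have h4 := tau1_cases k (by omega) ⟨k - 2, by omega⟩
      simp only at h3 h4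
      omega
    · have h3 := tau2_cases k (by omega) ⟨k - 1, by omega⟩
      have h4 := tau2_cases k (by omega) ⟨k - 2, by omega⟩
      simp only at h3 h4
      omega
  have hq2 := hrel.1 hdesc
  rw [Finset.mem_insert, Finset.mem_singleton] at hq
  rw [Fin.lt_def] at hq2
  rcases hq with rfl | rfl
  · have h3 := tau1_cases k (by omega) ⟨k - 1 - d, by omega⟩
    have h4 := tau1_cases k (by omega) ⟨k - 2 - d, by omega⟩
    simp only at h3 h4
    omega
  · have h3 := tau2_cases k (by omega) ⟨k - 1 - d, by omega⟩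
    have h4 := tau2_cases k (by omega) ⟨k - 2 - d, by omega⟩
    simp only at h3 h4
    omega

/-- The pair of the counterexample is non-overlapping. -/
lemma nonOverlap_rho (hk : 6 ≤ k) :
    NonOverlap ({tau1 k (by omega), rho k hk} : Finset (Perm (Fin k))) := by
  intro p hp q hq σ i j hij hpo hqo
  have h1 := hpo.le
  have h2 := hqo.le
  by_contra hcon
  obtain ⟨d, rfl⟩ : ∃ d, j = i + d := ⟨j - i, by omega⟩
  have hd : 1 ≤ d ∧ d ≤ k - 2 := by omega
  have hrel := overlap_rel hpo hqo ⟨k - 1 - d, by omega⟩ ⟨k - 2 - d, by omega⟩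
    ⟨k - 1, by omega⟩ ⟨k - 2, by omega⟩ (by simp only; omega) (by simp only; omega)
  have hdesc : p ⟨k - 1, by omega⟩ < p ⟨k - 2, by omega⟩ := by
    rw [Finset.mem_insert, Finset.mem_singleton] at hp
    rw [Fin.lt_def]
    rcases hp with rfl | rfl
    · have h3 := tau1_cases k (by omega) ⟨k - 1, by omega⟩
      have h4 := tau1_cases k (by omega) ⟨k - 2, by omega⟩
      simp only at h3 h4
      omega
    · have h3 := rho_cases k hk ⟨k - 1, by omega⟩
      have h4 := rho_cases k hk ⟨k - 2, by omega⟩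
      simp only at h3 h4
      omega
  have hasc : p ⟨3, by omega⟩ < p ⟨k - 1, by omega⟩ := by
    rw [Finset.mem_insert, Finset.mem_singleton] at hp
    rw [Fin.lt_def]
    rcases hp with rfl | rfl
    · have h3 := tau1_cases k (by omega) ⟨k - 1, by omega⟩
      have h4 := tau1_cases k (by omega) ⟨3, by omega⟩
      simp only at h3 h4
      omega
    · have h3 := rho_cases k hk ⟨k - 1, by omega⟩
      have h4 := rho_cases k hk ⟨3, by omega⟩
      simp only at h3 h4
      omega
  have hq2 := hrel.1 hdesc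
  rw [Finset.mem_insert, Finset.mem_singleton] at hq
  rw [Fin.lt_def] at hq2
  rcases hq with rfl | rfl
  · have h3 := tau1_cases k (by omega) ⟨k - 1 - d, by omega⟩
    have h4 := tau1_cases k (by omega) ⟨k - 2 - d, by omega⟩
    simp only at h3 h4
    omega
  · have h3 := rho_cases k hk ⟨k - 1 - d, by omega⟩
    have h4 := rho_cases k hk ⟨k - 2 - d, by omega⟩
    simp only at h3 h4
    have hd2 : d = 2 := by omega
    subst hd2
    have hrel2 := overlap_rel hpo hqo ⟨1, by omega⟩ ⟨k - 3, by omega⟩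
      ⟨3, by omega⟩ ⟨k - 1, by omega⟩ (by simp only) (by simp only; omega)
    have hq3 := hrel2.1 hasc
    rw [Fin.lt_def] at hq3
    have h5 := rho_cases k hk ⟨1, by omega⟩
    have h6 := rho_cases k hk ⟨k - 3, by omega⟩
    simp only at h5 h6
    omega

end NonOverlapping

/-- For every `k ≥ 6` the pair `{1 2 ⋯ (k-2) k (k-1), 1 2 ⋯ (k-3) (k-1) k (k-2)}` does not
minimise the number of consecutively avoiding permutations of length `2k-1`. -/
theorem result (k : ℕ) (hk : 6 ≤ k) :
    ∃ B' : Finset (Perm (Fin k)), B'.card = 2 ∧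
      alpha B' (2 * k - 1) <
        alpha {tau1 k (le_trans (by norm_num) hk), tau2 k (le_trans (by norm_num) hk)}
          (2 * k - 1) := by
  have hk3 : 3 ≤ k := by omega
  have hk2 : 2 ≤ k := by omega
  set t1 := tau1 k hk3 with ht1
  set t2 := tau2 k hk3 with ht2
  set r := rho k hk with hr
  have v1 := tau1_cases k hk3 ⟨k - 3, by omega⟩
  have v2 := tau2_cases k hk3 ⟨k - 3, by omega⟩
  have v3 := rho_cases k hk ⟨k - 3, by omega⟩
  simp only at v1 v2 v3
  have hne12 : t1 ≠ t2 := by
    intro h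
    rw [← ht1, h, ht2] at v1
    omega
  have hne1r : t1 ≠ r := by
    intro h
    rw [← ht1, h, hr] at v1
    omega
  refine ⟨{t1, r}, Finset.card_pair hne1r, ?_⟩
  obtain ⟨M, hM, hA⟩ := alpha_formula hk2 t1 t2 t1 hne12 (nonOverlap_tau hk)
  obtain ⟨M', hM', hA'⟩ := alpha_formula hk2 t1 r t1 hne1r (nonOverlap_rho hk)
  have hMM : M = M' := by rw [hM, hM']
  -- values at the ends
  have u1 := tau1_cases k hk3 ⟨k - 1, by omega⟩
  have u2 := rho_cases k hk ⟨k - 1, by omega⟩
  have u3 := tau1_cases k hk3 ⟨0, by omega⟩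
  have u4 := tau2_cases k hk3 ⟨0, by omega⟩
  have u5 := rho_cases k hk ⟨0, by omega⟩
  simp only at u1 u2 u3 u4 u5
  have e1 : t1 ⟨k - 1, by omega⟩ = r ⟨k - 1, by omega⟩ := by
    apply Fin.ext
    rw [ht1, hr]
    omega
  have e2 : t1 ⟨0, by omega⟩ = r ⟨0, by omega⟩ := by
    apply Fin.ext
    rw [ht1, hr]
    omega
  have e3 : t1 ⟨0, by omega⟩ = t2 ⟨0, by omega⟩ := by
    apply Fin.ext
    rw [ht1, ht2]
    omega
  have c1 : (EE t1 r).card ≤ (EE t1 t1).card := card_EE_le hk2 _ _ _ _ rfl e2.symm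
  have c2 : (EE r t1).card ≤ (EE t1 t1).card := card_EE_le hk2 _ _ _ _ e1.symm rfl
  have c3 : (EE r r).card ≤ (EE t1 t1).card := card_EE_le hk2 _ _ _ _ e1.symm e2.symm
  have c4 : (EE t1 t1).card ≤ (EE t1 t2).card := card_EE_le hk2 _ _ _ _ rfl e3
  have c5 : (EE t2 t1).card ≤ (EE t2 t2).card := card_EE_le hk2 _ _ _ _ rfl e3
  have c6 : (EE t1 t1).card < (EE t2 t1).card := card_EE_lt hk
  omega

end Pool.Agent.Results.MP_f2c072_co.Disproof
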